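import Mathlib
import Pool.Agent.H436R3.MainC

/-!
# Plane orbifold pairs: orbifold rational curves of degree one
-/

set_option autoImplicit false

namespace Pool.Agent.Y173.SH

open Polynomial Pool.Agent.H436R3

theorem mult_le_two {c : ℚ} (hc1 : c ≤ 1) : mult c ≤ 2 * mult (max 0 (2 * c - 1)) := by
  have hc' : (0 : ℝ) ≤ 1 - c := by
    have : (c : ℝ) ≤ 1 := by exact_mod_cast hc1
    linarith
  have h1 : (1 : ℝ) - ((max 0 (2 * c - 1) : ℚ) : ℝ) ≤ 2 * (1 - c) := by
    push_cast
    have := le_max_right (0 : ℝ) (2 * (c : ℝ) - 1)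
    linarith
  have h2 : mult (max 0 (2 * c - 1)) ≥ (ENNReal.ofReal (2 * (1 - (c : ℝ))))⁻¹ := by
    rw [mult]
    exact ENNReal.inv_le_inv.2 (ENNReal.ofReal_le_ofReal h1)
  refine le_trans ?_ (mul_le_mul_right h2 _)
  rw [ENNReal.ofReal_mul (by norm_num), ENNReal.ofReal_ofNat,
    ENNReal.mul_inv (Or.inl (by norm_num)) (Or.inl (by norm_num)), ← mul_assoc,
    ENNReal.mul_inv_cancel (by norm_num) (by norm_num), one_mul, mult]

/-- a criterion for orbifold rational curves -/
theorem orb_of_sets {d : ℕ} (P : PlaneOrbifold d) {c : ℚ} (hc0 : 0 ≤ c) (hc1 : c ≤ 1)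
    (hc : ∀ j, P.c j ≤ c) (γ : RatCurve) (he : 1 ≤ γ.e) (hp : ∀ j, γ.pull (P.ℓ j) ≠ 0)
    (S T : Finset (Option ℂ))
    (hST : ∀ a j, ∑ i, P.ℓ j i * γ.val a i = 0 → a ∈ S ∨ (a ∈ T ∧ 2 ≤ γ.ord (P.ℓ j) a))
    (hsum : S.card * c + T.card * max 0 (2 * c - 1) < 2) :
    ∃ δ, P.IsOrbifoldRationalCurve γ δ := by
  classical
  have hc'0 : 0 ≤ max 0 (2 * c - 1) := le_max_left _ _
  have hc'1 : max 0 (2 * c - 1) ≤ 1 := max_le zero_le_one (by linarith)
  obtain ⟨F, hF⟩ : ∃ F : Option ℂ → ℚ, F = fun a =>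
    if a ∈ S then c else if a ∈ T then max 0 (2 * c - 1) else 0 := ⟨_, rfl⟩
  have hFS : ∀ a, F a ≠ 0 → a ∈ S ∪ T := by
    intro a ha
    rw [hF] at ha
    by_contra h
    rw [Finset.mem_union, not_or] at h
    simp only [if_neg h.1, if_neg h.2] at ha
    exact ha rfl
  refine ⟨Finsupp.onFinset (S ∪ T) F hFS, ⟨he, ?_, ?_, hp, ?_⟩, ?_⟩
  · intro a
    rw [Finsupp.onFinset_apply, hF]
    dsimp only
    split_ifs
    · exact hc0
    · exact hc'0
    · exact le_rfl
  · intro a
    rw [Finsupp.onFinset_apply, hF]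
    dsimp only
    split_ifs
    · exact hc1
    · exact hc'1
    · exact zero_le_one
  · intro a j haj
    rw [Finsupp.onFinset_apply]
    have h0 := γ.ord_ne_zero (hp j) haj
    by_cases haS : a ∈ S
    · have h1 : F a = c := by rw [hF]; simp only [if_pos haS]
      rw [h1]
      refine (mult_mono (hc j)).trans ?_
      have h6 : (1 : ENNReal) ≤ (γ.ord (P.ℓ j) a : ENNReal) := by
        have := Nat.one_le_iff_ne_zero.2 h0
        exact_mod_cast this
      calc mult c = 1 * mult c := (one_mul _).symm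
        _ ≤ _ := mul_le_mul_left h6 _
    · obtain ⟨haT, h2⟩ := (hST a j haj).resolve_left haS
      have h1 : F a = max 0 (2 * c - 1) := by rw [hF]; simp only [if_neg haS, if_pos haT]
      rw [h1]
      refine (mult_mono (hc j)).trans ((mult_le_two hc1).trans ?_)
      have h6 : (2 : ENNReal) ≤ (γ.ord (P.ℓ j) a : ENNReal) := by exact_mod_cast h2
      exact mul_le_mul_left h6 _
  · rw [Finsupp.onFinset_sum hFS (fun _ => rfl)]
    have h1 : ∑ a ∈ S ∪ T, F a ≤ S.card * c + T.card * max 0 (2 * c - 1) := by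
      calc ∑ a ∈ S ∪ T, F a ≤ ∑ a ∈ S ∪ T, ((if a ∈ S then c else 0) +
            (if a ∈ T then max 0 (2 * c - 1) else 0)) := by
            refine Finset.sum_le_sum fun a _ => ?_
            rw [hF]
            dsimp only
            split_ifs <;> linarith
        _ = S.card * c + T.card * max 0 (2 * c - 1) := by
            rw [Finset.sum_add_distrib, ← Finset.sum_filter, ← Finset.sum_filter,
              Finset.sum_const, Finset.sum_const, nsmul_eq_mul, nsmul_eq_mul]
            congr 3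
            · rw [Finset.filter_mem_eq_inter, Finset.union_inter_cancel_left]
            · rw [Finset.filter_mem_eq_inter, Finset.union_inter_cancel_right]
    linarith

/-- finitely many non-zero linear forms do not vanish at a very general point -/
theorem veryGeneral_forms {ι : Type} [Finite ι] (m : ι → Fin 3 → ℂ) (hm : ∀ j, m j ≠ 0)
    {Q : (Fin 3 → ℂ) → Prop} (hQ : ∀ x, x ≠ 0 → (∀ j, ∑ i, m j i * x i ≠ 0) → Q x) :
    VeryGeneral Q := by
  classical
  obtain ⟨N, ⟨e⟩⟩ := Finite.exists_equiv_fin ι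
  let Z : ℕ → MvPolynomial (Fin 3) ℂ := fun n =>
    if h : n < N then ∑ i, MvPolynomial.C (m (e.symm ⟨n, h⟩) i) * MvPolynomial.X i else 1
  refine ⟨Z, fun n => ?_, fun x hx hZ => hQ x hx fun j => ?_⟩
  · by_cases h : n < N
    · have h1 : Z n = ∑ i, MvPolynomial.C (m (e.symm ⟨n, h⟩) i) * MvPolynomial.X i := dif_pos h
      rw [h1]
      refine ⟨?_, 1, ?_⟩
      · obtain ⟨i, hi⟩ := Function.ne_iff.1 (hm (e.symm ⟨n, h⟩))
        intro h0
        apply hi
        have h2 := congrArg (MvPolynomial.eval (Pi.single i (1 : ℂ))) h0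
        rw [map_sum, map_zero] at h2
        simp only [map_mul, MvPolynomial.eval_C, MvPolynomial.eval_X, Pi.single_apply, mul_ite,
          mul_one, mul_zero, Finset.sum_ite_eq', Finset.mem_univ, if_true] at h2
        exact h2
      · refine MvPolynomial.IsHomogeneous.sum _ _ _ fun i _ => ?_
        have h2 := (MvPolynomial.isHomogeneous_C (Fin 3) (m (e.symm ⟨n, h⟩) i)).mul
          (MvPolynomial.isHomogeneous_X ℂ i)
        simpa using h2
    · have h1 : Z n = 1 := dif_neg h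
      rw [h1]
      exact ⟨one_ne_zero, 0, MvPolynomial.isHomogeneous_one _ _⟩
  · have h1 := hZ (e j)
    have h2 : Z (e j) = ∑ i, MvPolynomial.C (m j i) * MvPolynomial.X i := by
      have h3 : Z (e j) = ∑ i, MvPolynomial.C (m (e.symm ⟨(e j : ℕ), (e j).2⟩) i) *
          MvPolynomial.X i := dif_pos (e j).2
      rw [h3]
      simp
    rw [h2, map_sum] at h1
    simpa using h1

/-- the line through two points -/
theorem line_through {q x : Fin 3 → ℂ} (h : LinearIndependent ℂ ![q, x]) :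
    ∃ γ : RatCurve, γ.e = 1 ∧ γ.val none = x ∧ (∀ i, γ.f i = C (q i) + C (x i) * X) := by
  rw [LinearIndependent.pair_iff] at h
  refine ⟨⟨1, fun i => C (q i) + C (x i) * X, fun i => ?_, ?_, ?_⟩, rfl, ?_, fun _ => rfl⟩
  · rw [add_comm]
    exact natDegree_linear_le
  · by_contra hcon
    push Not at hcon
    have h1 := h 0 1 (by
      funext i
      have := hcon i
      simp only [coeff_add, coeff_C_mul, coeff_X_one, mul_one] at this
      rw [coeff_C_of_ne_zero one_ne_zero, zero_add] at this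
      simp [this])
    exact one_ne_zero h1.2
  · intro a
    by_contra hcon
    push Not at hcon
    have h1 := h 1 a (by
      funext i
      have := hcon i
      simp only [eval_add, eval_C, eval_mul, eval_X] at this
      simp only [one_smul, Pi.add_apply, Pi.smul_apply, smul_eq_mul, Pi.zero_apply]
      linear_combination this)
    exact one_ne_zero h1.1
  · funext i
    simp only [RatCurve.val, coeff_add, coeff_C_mul, coeff_X_one, mul_one]
    rw [coeff_C_of_ne_zero one_ne_zero, zero_add]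

/-- an orbifold rational curve through the point, which is a line or a smooth conic -/
def LC {d : ℕ} (P : PlaneOrbifold d) (x : Fin 3 → ℂ) : Prop :=
  ∃ (γ : RatCurve) (δ : Option ℂ →₀ ℚ), P.IsOrbifoldRationalCurve γ δ ∧ γ.Through x ∧
    (γ.e = 1 ∨ γ.e = 2 ∧ LinearIndependent ℂ γ.f)

theorem exists_kill {d : ℕ} (ℓ : Fin d → Fin 3 → ℂ) :
    ∃ q : Fin 3 → ℂ, q ≠ 0 ∧ ∀ j : Fin d, (j : ℕ) < 2 → ∑ i, ℓ j i * q i = 0 := by
  classical
  let φ : (Fin 3 → ℂ) →ₗ[ℂ] (Fin 2 → ℂ) :=
    LinearMap.pi fun j => if h : (j : ℕ) < d then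
      ∑ i, ℓ ⟨j, h⟩ i • LinearMap.proj i else 0
  have h1 : LinearMap.ker φ ≠ ⊥ := LinearMap.ker_ne_bot_of_finrank_lt (by simp)
  obtain ⟨q, hq, hq0⟩ := Submodule.exists_mem_ne_zero_of_ne_bot h1
  refine ⟨q, hq0, fun j hj => ?_⟩
  have h2 := congrFun (LinearMap.mem_ker.1 hq) ⟨j, hj⟩
  simp only [φ, LinearMap.pi_apply, Pi.zero_apply] at h2
  rw [dif_pos j.2] at h2
  simpa using h2

/-- lines through the intersection of two of the lines -/
theorem lines_aux {d : ℕ} (hd : 1 ≤ d) (P : PlaneOrbifold d) :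
    VeryGeneral fun x => ∃ (γ : RatCurve) (S : Finset (Option ℂ)), γ.e = 1 ∧ γ.Through x ∧
      (∀ j, γ.pull (P.ℓ j) ≠ 0) ∧ S.card ≤ 1 + (d - 2) ∧
      ∀ a j, ∑ i, P.ℓ j i * γ.val a i = 0 → a ∈ S := by
  classical
  obtain ⟨q, hq0, hq⟩ := exists_kill P.ℓ
  have hl : ∀ j, P.ℓ j ≠ 0 := by
    intro j
    have h1 := P.general {j} (by simp)
    exact h1.ne_zero ⟨j, by simp⟩
  refine veryGeneral_forms P.ℓ hl fun x hx hgen => ?_
  have hqx : LinearIndependent ℂ ![q, x] := by
    rw [LinearIndependent.pair_iff]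
    intro s t hst
    have h1 : ∑ i, P.ℓ ⟨0, hd⟩ i * (s • q + t • x) i = 0 := by
      rw [hst]
      simp
    have h2 : ∑ i, P.ℓ ⟨0, hd⟩ i * (s • q + t • x) i =
        s * ∑ i, P.ℓ ⟨0, hd⟩ i * q i + t * ∑ i, P.ℓ ⟨0, hd⟩ i * x i := by
      rw [Finset.mul_sum, Finset.mul_sum, ← Finset.sum_add_distrib]
      refine Finset.sum_congr rfl fun i _ => ?_
      simp only [Pi.add_apply, Pi.smul_apply, smul_eq_mul]
      ring
    rw [h2, hq ⟨0, hd⟩ (by simp), mul_zero, zero_add] at h1
    have ht : t = 0 := (mul_eq_zero.1 h1).resolve_right (hgen _)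
    refine ⟨?_, ht⟩
    rw [ht, zero_smul, add_zero] at hst
    exact (smul_eq_zero.1 hst).resolve_right hq0
  obtain ⟨γ, he, hinf, hf⟩ := line_through hqx
  have hpull : ∀ j, γ.pull (P.ℓ j) = C (∑ i, P.ℓ j i * q i) + C (∑ i, P.ℓ j i * x i) * X := by
    intro j
    rw [RatCurve.pull, map_sum, map_sum, Finset.sum_mul, ← Finset.sum_add_distrib]
    refine Finset.sum_congr rfl fun i _ => ?_
    rw [hf, map_mul, map_mul]
    ring
  have hp : ∀ j, γ.pull (P.ℓ j) ≠ 0 := by
    intro j h0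
    apply hgen j
    have h1 := congrArg (fun p => coeff p 1) h0
    simp only [hpull, coeff_add, coeff_C_mul, coeff_X_one, mul_one, coeff_zero] at h1
    rwa [coeff_C_of_ne_zero one_ne_zero, zero_add] at h1
  let rt : Fin d → Option ℂ := fun j => some (-(∑ i, P.ℓ j i * q i) / ∑ i, P.ℓ j i * x i)
  let S : Finset (Option ℂ) := insert (some 0)
    ((Finset.univ.filter fun j : Fin d => 2 ≤ (j : ℕ)).image rt)
  have hScard : S.card ≤ 1 + (d - 2) := by
    refine (Finset.card_insert_le _ _).trans ?_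
    rw [add_comm]
    refine Nat.add_le_add_left (Finset.card_image_le.trans ?_) 1
    have h1 : (Finset.univ.filter fun j : Fin d => 2 ≤ (j : ℕ)).card =
        ((Finset.univ.filter fun j : Fin d => 2 ≤ (j : ℕ)).image (fun j : Fin d => (j : ℕ))).card :=
      (Finset.card_image_of_injective _ Fin.val_injective).symm
    rw [h1]
    have h2 : (Finset.univ.filter fun j : Fin d => 2 ≤ (j : ℕ)).image (fun j : Fin d => (j : ℕ)) ⊆
        Finset.Ico 2 d := by
      intro n hn
      rw [Finset.mem_image] at hn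
      obtain ⟨j, hj, rfl⟩ := hn
      rw [Finset.mem_Ico]
      exact ⟨(Finset.mem_filter.1 hj).2, j.2⟩
    exact (Finset.card_le_card h2).trans (by rw [Nat.card_Ico])
  refine ⟨γ, S, he, ⟨none, 1, one_ne_zero, by rw [one_smul]; exact hinf⟩, hp, hScard,
    fun a j haj => ?_⟩
  rcases a with _ | a
  · rw [hinf] at haj
    exact absurd haj (hgen j)
  · rw [RatCurve.sum_val_some, hpull] at haj
    simp only [eval_add, eval_C, eval_mul, eval_X] at haj
    by_cases hj : (j : ℕ) < 2
    · rw [hq j hj, zero_add] at haj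
      have h1 : a = 0 := (mul_eq_zero.1 haj).resolve_left (hgen j)
      rw [h1]
      exact Finset.mem_insert_self _ _
    · refine Finset.mem_insert_of_mem (Finset.mem_image.2 ⟨j, ?_, ?_⟩)
      · rw [Finset.mem_filter]
        exact ⟨Finset.mem_univ _, by omega⟩
      · have h1 : a = -(∑ i, P.ℓ j i * q i) / ∑ i, P.ℓ j i * x i := by
          rw [eq_div_iff (hgen j)]
          linear_combination haj
        rw [h1]

theorem lines {d : ℕ} (hd : 1 ≤ d) (P : PlaneOrbifold d) {c : ℚ} (hc : ∀ j, P.c j ≤ c)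
    (hc1 : c ≤ 1) (h : (1 + (d - 2 : ℕ) : ℚ) * c < 2) : VeryGeneral (LC P) := by
  have hc0 : 0 ≤ c := (P.c_pos ⟨0, hd⟩).le.trans (hc _)
  obtain ⟨Z, hZ, h1⟩ := lines_aux hd P
  refine ⟨Z, hZ, fun x hx hn => ?_⟩
  obtain ⟨γ, S, he, hx, hp, hScard, hS⟩ := h1 x hx hn
  obtain ⟨δ, hδ⟩ := orb_of_sets P hc0 hc1 hc γ (by omega) hp S ∅
    (fun a j haj => Or.inl (hS a j haj)) (by
    rw [Finset.card_empty, Nat.cast_zero, zero_mul, add_zero]
    refine lt_of_le_of_lt (mul_le_mul_of_nonneg_right ?_ hc0) h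
    exact_mod_cast hScard)
  exact ⟨γ, δ, hδ, hx, Or.inl he⟩

end Pool.Agent.Y173.SH
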