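import Mathlib
import Pool.Agent.Y173.SH.Pos

/-!
# Plane orbifold pairs: conics tangent to four lines
-/

set_option autoImplicit false

namespace Pool.Agent.Y173.SH

open Polynomial Pool.Agent.H436R3

/-- squares of three pairwise non-proportional linear polynomials are linearly independent -/
theorem squares_indep {p u : Fin 3 → ℂ} (h01 : p 0 * u 1 - p 1 * u 0 ≠ 0)
    (h02 : p 2 * u 0 - p 0 * u 2 ≠ 0) (h12 : p 1 * u 2 - p 2 * u 1 ≠ 0) {b : Fin 3 → ℂ}
    (hb : ∑ k, C (b k) * (C (p k) + C (u k) * X) ^ 2 = 0) : b = 0 := by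
  have hco : ∀ k, C (b k) * (C (p k) + C (u k) * X) ^ 2 = C (b k * p k ^ 2) +
      C (b k * (2 * (p k * u k))) * X + C (b k * u k ^ 2) * X ^ 2 := by
    intro k
    simp only [map_mul, map_pow, map_ofNat]
    ring
  have e0 : ∑ k, b k * p k ^ 2 = 0 := by
    have h1 := congrArg (fun f => coeff f 0) hb
    simp only [hco, finsetSum_coeff, coeff_add, coeff_C_mul, coeff_C_zero, coeff_X_zero, mul_zero,
      add_zero, coeff_X_pow, coeff_zero] at h1
    simpa using h1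
  have e1 : ∑ k, b k * (p k * u k) = 0 := by
    have h1 := congrArg (fun f => coeff f 1) hb
    simp only [hco, finsetSum_coeff, coeff_add, coeff_C_mul, coeff_X_one, mul_one,
      coeff_X_pow, coeff_zero, coeff_C_of_ne_zero one_ne_zero, zero_add] at h1
    have h2 : ∑ k, b k * (2 * (p k * u k)) = 0 := by simpa using h1
    have h3 : 2 * ∑ k, b k * (p k * u k) = 0 := by
      rw [← h2, Finset.mul_sum]
      exact Finset.sum_congr rfl fun _ _ => by ring
    exact (mul_eq_zero.1 h3).resolve_left two_ne_zero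
  have e2 : ∑ k, b k * u k ^ 2 = 0 := by
    have h1 := congrArg (fun f => coeff f 2) hb
    simp only [hco, finsetSum_coeff, coeff_add, coeff_C_mul, coeff_X, mul_one,
      coeff_X_pow, coeff_zero, coeff_C_of_ne_zero two_ne_zero, zero_add] at h1
    simpa using h1
  rw [Fin.sum_univ_three] at e0 e1 e2
  have k2 : b 2 * ((p 1 * u 2 - p 2 * u 1) * (p 2 * u 0 - p 0 * u 2)) = 0 := by
    linear_combination -(u 0 * u 1) * e0 + (p 0 * u 1 + p 1 * u 0) * e1 - p 0 * p 1 * e2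
  have k0 : b 0 * ((p 0 * u 1 - p 1 * u 0) * (p 2 * u 0 - p 0 * u 2)) = 0 := by
    linear_combination -(u 1 * u 2) * e0 + (p 1 * u 2 + p 2 * u 1) * e1 - p 1 * p 2 * e2
  have k1 : b 1 * ((p 0 * u 1 - p 1 * u 0) * (p 1 * u 2 - p 2 * u 1)) = 0 := by
    linear_combination -(u 0 * u 2) * e0 + (p 0 * u 2 + p 2 * u 0) * e1 - p 0 * p 2 * e2
  funext k
  fin_cases k
  · exact (mul_eq_zero.1 k0).resolve_right (mul_ne_zero h01 h02)
  · exact (mul_eq_zero.1 k1).resolve_right (mul_ne_zero h01 h12)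
  · exact (mul_eq_zero.1 k2).resolve_right (mul_ne_zero h12 h02)

/-- the isotropic vector orthogonal to `u` -/
theorem exists_isotropic {u : Fin 3 → ℂ} (h12 : u 1 ^ 2 + u 2 ^ 2 ≠ 0)
    (h02 : u 0 ^ 2 + u 2 ^ 2 ≠ 0) (h01 : u 0 ^ 2 + u 1 ^ 2 ≠ 0)
    (hs : u 0 ^ 2 + u 1 ^ 2 + u 2 ^ 2 ≠ 0) :
    ∃ p : Fin 3 → ℂ, p 0 ^ 2 + p 1 ^ 2 + p 2 ^ 2 = 0 ∧ p 0 * u 0 + p 1 * u 1 + p 2 * u 2 = 0 ∧
      p 0 * u 1 - p 1 * u 0 ≠ 0 ∧ p 2 * u 0 - p 0 * u 2 ≠ 0 ∧ p 1 * u 2 - p 2 * u 1 ≠ 0 := by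
  obtain ⟨ρ, hρ⟩ := IsAlgClosed.exists_pow_nat_eq (-(u 0 ^ 2 + u 1 ^ 2 + u 2 ^ 2)) two_pos
  have hρ0 : ρ ≠ 0 := by
    intro h0
    rw [h0, zero_pow two_ne_zero] at hρ
    exact hs (neg_eq_zero.1 hρ.symm)
  refine ⟨![-(u 1 ^ 2 + u 2 ^ 2), u 0 * u 1 + ρ * u 2, u 0 * u 2 - ρ * u 1], ?_, ?_, ?_, ?_, ?_⟩
  · simp only [Matrix.cons_val_zero, Matrix.cons_val_one, Matrix.cons_val]
    linear_combination (u 1 ^ 2 + u 2 ^ 2) * hρ
  · simp only [Matrix.cons_val_zero, Matrix.cons_val_one, Matrix.cons_val]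
    ring
  · simp only [Matrix.cons_val_zero, Matrix.cons_val_one, Matrix.cons_val]
    intro h0
    have h1 : ρ * (u 0 * u 2 - ρ * u 1) = 0 := by
      linear_combination -h0 - u 1 * hρ
    have h2 := (mul_eq_zero.1 h1).resolve_left hρ0
    have h3 : (u 0 ^ 2 + u 1 ^ 2) * (u 2 ^ 2 + u 1 ^ 2) = 0 := by
      linear_combination (u 0 * u 2 + ρ * u 1) * h2 + u 1 ^ 2 * hρ
    rcases mul_eq_zero.1 h3 with h4 | h4
    · exact h01 h4
    · exact h12 (by rw [add_comm]; exact h4)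
  · simp only [Matrix.cons_val_zero, Matrix.cons_val_one, Matrix.cons_val]
    intro h0
    have h1 : ρ * (u 0 * u 1 + ρ * u 2) = 0 := by
      linear_combination -h0 + u 2 * hρ
    have h2 := (mul_eq_zero.1 h1).resolve_left hρ0
    have h3 : (u 0 ^ 2 + u 2 ^ 2) * (u 1 ^ 2 + u 2 ^ 2) = 0 := by
      linear_combination (u 0 * u 1 - ρ * u 2) * h2 + u 2 ^ 2 * hρ
    rcases mul_eq_zero.1 h3 with h4 | h4
    · exact h02 h4
    · exact h12 h4
  · simp only [Matrix.cons_val_zero, Matrix.cons_val_one, Matrix.cons_val]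
    intro h0
    have h1 : ρ * (u 1 ^ 2 + u 2 ^ 2) = 0 := by
      linear_combination h0
    exact h12 ((mul_eq_zero.1 h1).resolve_left hρ0)

/-- four lines in general position -/
theorem four_lines {ℓ : Fin 4 → Fin 3 → ℂ}
    (general : ∀ s : Finset (Fin 4), s.card ≤ 3 → LinearIndependent ℂ (fun j : s => ℓ j)) :
    ∃ α : Fin 3 → ℂ, (∀ k, α k ≠ 0) ∧ (∀ i, ℓ 3 i = ∑ k : Fin 3, α k * ℓ k.castSucc i) ∧
      (Matrix.of fun k i => α k * ℓ (Fin.castSucc k) i).det ≠ 0 := by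
  have hdet : (Matrix.of ![ℓ 0, ℓ 1, ℓ 2]).det ≠ 0 :=
    det_ne_zero_of_general general (by decide) (by decide) (by decide)
  obtain ⟨α, hα⟩ : ∃ α : Fin 3 → ℂ, Matrix.vecMul α (Matrix.of ![ℓ 0, ℓ 1, ℓ 2]) = ℓ 3 := by
    refine ⟨Matrix.vecMul (ℓ 3) (Matrix.of ![ℓ 0, ℓ 1, ℓ 2])⁻¹, ?_⟩
    rw [Matrix.vecMul_vecMul, Matrix.nonsing_inv_mul _ hdet.isUnit, Matrix.vecMul_one]
  have hα' : ∀ i, ℓ 3 i = α 0 * ℓ 0 i + α 1 * ℓ 1 i + α 2 * ℓ 2 i := by
    intro i
    have h1 := congrFun hα i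
    rw [← h1, Matrix.vecMul, dotProduct, Fin.sum_univ_three]
    simp [Matrix.of_apply]
  have h0 : α 0 ≠ 0 := by
    intro h0
    have h1 := det_ne_zero_of_general general (i := 1) (j := 2) (k := 3) (by decide) (by decide)
      (by decide)
    apply h1
    rw [Matrix.det_fin_three]
    simp only [Matrix.of_apply, Matrix.cons_val_zero, Matrix.cons_val_one, Matrix.cons_val, hα', h0]
    ring
  have h1 : α 1 ≠ 0 := by
    intro h0
    have h1 := det_ne_zero_of_general general (i := 0) (j := 2) (k := 3) (by decide) (by decide)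
      (by decide)
    apply h1
    rw [Matrix.det_fin_three]
    simp only [Matrix.of_apply, Matrix.cons_val_zero, Matrix.cons_val_one, Matrix.cons_val, hα', h0]
    ring
  have h2 : α 2 ≠ 0 := by
    intro h0
    have h1 := det_ne_zero_of_general general (i := 0) (j := 1) (k := 3) (by decide) (by decide)
      (by decide)
    apply h1
    rw [Matrix.det_fin_three]
    simp only [Matrix.of_apply, Matrix.cons_val_zero, Matrix.cons_val_one, Matrix.cons_val, hα', h0]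
    ring
  refine ⟨α, ?_, ?_, ?_⟩
  · intro k
    fin_cases k
    · exact h0
    · exact h1
    · exact h2
  · intro i
    rw [Fin.sum_univ_three, hα']
    rfl
  · have h3 : (Matrix.of fun k i => α k * ℓ (Fin.castSucc k) i).det =
        (α 0 * α 1 * α 2) * (Matrix.of ![ℓ 0, ℓ 1, ℓ 2]).det := by
      rw [Matrix.det_fin_three, Matrix.det_fin_three]
      simp only [Matrix.of_apply, Matrix.cons_val_zero, Matrix.cons_val_one, Matrix.cons_val]
      have q0 : Fin.castSucc (0 : Fin 3) = (0 : Fin 4) := rfl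
      have q1 : Fin.castSucc (1 : Fin 3) = (1 : Fin 4) := rfl
      have q2 : Fin.castSucc (2 : Fin 3) = (2 : Fin 4) := rfl
      rw [q0, q1, q2]
      ring
    rw [h3]
    exact mul_ne_zero (mul_ne_zero (mul_ne_zero h0 h1) h2) hdet

/-- the conic through a point, tangent to the four lines -/
theorem exists_conic {ℓ : Fin 4 → Fin 3 → ℂ}
    (general : ∀ s : Finset (Fin 4), s.card ≤ 3 → LinearIndependent ℂ (fun j : s => ℓ j))
    {α : Fin 3 → ℂ} (hα : ∀ k, α k ≠ 0) (hℓ : ∀ i, ℓ 3 i = ∑ k : Fin 3, α k * ℓ k.castSucc i)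
    (hdet : (Matrix.of fun k i => α k * ℓ (Fin.castSucc k) i).det ≠ 0)
    {x : Fin 3 → ℂ} (hx : x ≠ 0) {y : Fin 3 → ℂ}
    (hy : ∀ k, y k = α k * ∑ i, ℓ (Fin.castSucc k) i * x i) (hy0 : ∀ k, y k ≠ 0)
    (h12 : y 1 + y 2 ≠ 0) (h02 : y 0 + y 2 ≠ 0) (h01 : y 0 + y 1 ≠ 0)
    (hs : y 0 + y 1 + y 2 ≠ 0) :
    ∃ (γ : RatCurve) (r : Fin 4 → ℂ), γ.e = 2 ∧ LinearIndependent ℂ γ.f ∧ γ.val none = x ∧
      ∀ j, ∃ s : ℂ, s ≠ 0 ∧ γ.pull (ℓ j) = C s * (X - C (r j)) ^ 2 := by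
  classical
  have hu : ∀ k, ∃ u : ℂ, u ^ 2 = y k := fun k => IsAlgClosed.exists_pow_nat_eq _ two_pos
  choose u hu using hu
  obtain ⟨p, hpp, hpu, q01, q02, q12⟩ := exists_isotropic (u := u) (by rw [hu, hu]; exact h12)
    (by rw [hu, hu]; exact h02) (by rw [hu, hu]; exact h01) (by rw [hu, hu, hu]; exact hs)
  have hu0 : ∀ k, u k ≠ 0 := by
    intro k h0
    apply hy0 k
    rw [← hu, h0, zero_pow two_ne_zero]
  obtain ⟨A, hA⟩ : ∃ A : Matrix (Fin 3) (Fin 3) ℂ,
    A = Matrix.of fun k i => α k * ℓ (Fin.castSucc k) i := ⟨_, rfl⟩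
  have hAd : IsUnit A.det := by
    rw [hA]
    exact hdet.isUnit
  obtain ⟨g, hg⟩ : ∃ g : Fin 3 → ℂ[X], g = fun k => (C (p k) + C (u k) * X) ^ 2 := ⟨_, rfl⟩
  obtain ⟨F, hF⟩ : ∃ F : Fin 3 → ℂ[X], F = fun i => ∑ k, C (A⁻¹ i k) * g k := ⟨_, rfl⟩
  have hgd : ∀ k, (g k).natDegree ≤ 2 := by
    intro k
    rw [hg]
    refine (natDegree_pow_le).trans ?_
    have h1 : (C (p k) + C (u k) * X).natDegree ≤ 1 := by
      rw [add_comm]
      exact natDegree_linear_le
    omega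
  have hFd : ∀ i, (F i).natDegree ≤ 2 := by
    intro i
    rw [hF]
    refine natDegree_sum_le_of_forall_le _ _ fun k _ => ?_
    exact (natDegree_C_mul_le _ _).trans (hgd k)
  have hgc : ∀ k, (g k).coeff 2 = y k := by
    intro k
    have h1 : g k = C (p k ^ 2) + C (2 * (p k * u k)) * X + C (u k ^ 2) * X ^ 2 := by
      rw [hg]
      simp only [map_mul, map_pow, map_ofNat]
      ring
    rw [h1]
    simp only [coeff_add, coeff_C_mul, coeff_X, coeff_X_pow, coeff_C_of_ne_zero two_ne_zero]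
    norm_num
    exact hu k
  have hAx : A.mulVec x = y := by
    funext k
    rw [hA, hy, Matrix.mulVec, dotProduct, Finset.mul_sum]
    refine Finset.sum_congr rfl fun i _ => ?_
    rw [Matrix.of_apply]
    ring
  have hFc : ∀ i, (F i).coeff 2 = x i := by
    intro i
    rw [hF]
    simp only [finsetSum_coeff, coeff_C_mul, hgc]
    have h1 : A⁻¹.mulVec y = x := by
      rw [← hAx, Matrix.mulVec_mulVec, Matrix.nonsing_inv_mul _ hAd, Matrix.one_mulVec]
    exact congrFun h1 i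
  -- the matrix applied to the polynomials
  have hAF : ∀ k, ∑ i, C (A k i) * F i = g k := by
    intro k
    have h1 : ∀ i, C (A k i) * F i = ∑ l, C (A k i * A⁻¹ i l) * g l := by
      intro i
      rw [hF, Finset.mul_sum]
      refine Finset.sum_congr rfl fun l _ => ?_
      rw [map_mul, mul_assoc]
    rw [Finset.sum_congr rfl fun i _ => h1 i, Finset.sum_comm]
    have h2 : ∀ l, ∑ i, C (A k i * A⁻¹ i l) * g l = C ((A * A⁻¹) k l) * g l := by
      intro l
      rw [← Finset.sum_mul, ← map_sum, Matrix.mul_apply]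
    rw [Finset.sum_congr rfl fun l _ => h2 l, Matrix.mul_nonsing_inv _ hAd,
      Finset.sum_eq_single k]
    · rw [Matrix.one_apply_eq, map_one, one_mul]
    · intro l _ hl
      rw [Matrix.one_apply_ne (Ne.symm hl), map_zero, zero_mul]
    · intro h
      exact absurd (Finset.mem_univ k) h
  have hfin : ∀ a : ℂ, ∃ i, (F i).eval a ≠ 0 := by
    intro a
    by_contra hcon
    push Not at hcon
    have h1 : ∀ k, p k + u k * a = 0 := by
      intro k
      have h2 := congrArg (eval a) (hAF k)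
      rw [eval_finsetSum] at h2
      simp only [eval_mul, hcon, mul_zero, Finset.sum_const_zero, hg, eval_pow, eval_add, eval_C,
        eval_X] at h2
      exact pow_eq_zero_iff two_ne_zero |>.1 h2.symm
    apply q01
    linear_combination u 1 * h1 0 - u 0 * h1 1
  have hLI : LinearIndependent ℂ F := by
    rw [Fintype.linearIndependent_iff]
    intro b hb
    have h1 : ∑ k, C (Matrix.vecMul b A⁻¹ k) * (C (p k) + C (u k) * X) ^ 2 = 0 := by
      rw [← hb]
      have h2 : ∀ i, b i • F i = ∑ k, C (b i * A⁻¹ i k) * g k := by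
        intro i
        rw [hF, Finset.smul_sum]
        refine Finset.sum_congr rfl fun k _ => ?_
        rw [smul_eq_C_mul, map_mul, mul_assoc]
      rw [Finset.sum_congr rfl fun i _ => h2 i, Finset.sum_comm]
      refine Finset.sum_congr rfl fun k _ => ?_
      rw [← Finset.sum_mul, ← map_sum, hg]
      rfl
    have h2 := squares_indep q01 q02 q12 h1
    have h3 : b = 0 := by
      have h4 : Matrix.vecMul (Matrix.vecMul b A⁻¹) A = b := by
        rw [Matrix.vecMul_vecMul, Matrix.nonsing_inv_mul _ hAd, Matrix.vecMul_one]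
      rw [← h4, h2, Matrix.zero_vecMul]
    intro i
    rw [h3]
    rfl
  obtain ⟨i0, hi0⟩ := Function.ne_iff.1 hx
  let γ : RatCurve := ⟨2, F, hFd, ⟨i0, by rw [hFc]; exact hi0⟩, hfin⟩
  have hpk : ∀ k : Fin 3, C (α k) * γ.pull (ℓ k.castSucc) = g k := by
    intro k
    rw [← hAF k, RatCurve.pull, Finset.mul_sum]
    refine Finset.sum_congr rfl fun i _ => ?_
    rw [hA, Matrix.of_apply, map_mul, mul_assoc]
  have hp3 : γ.pull (ℓ 3) = C (y 0 + y 1 + y 2) * (X - C 0) ^ 2 := by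
    have h1 : γ.pull (ℓ 3) = ∑ k, g k := by
      rw [← Finset.sum_congr rfl fun k _ => hpk k, RatCurve.pull]
      simp only [RatCurve.pull, Finset.mul_sum, hℓ, map_sum, Finset.sum_mul]
      rw [Finset.sum_comm]
      refine Finset.sum_congr rfl fun k _ => Finset.sum_congr rfl fun i _ => ?_
      rw [map_mul, mul_assoc]
    rw [h1, hg, Fin.sum_univ_three]
    have e1 : C (p 0 ^ 2 + p 1 ^ 2 + p 2 ^ 2) = (0 : ℂ[X]) := by rw [hpp, map_zero]
    have e2 : C (p 0 * u 0 + p 1 * u 1 + p 2 * u 2) = (0 : ℂ[X]) := by rw [hpu, map_zero]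
    simp only [map_add, map_mul, map_pow] at e1 e2
    rw [← hu, ← hu, ← hu]
    simp only [map_add, map_pow, map_zero, sub_zero]
    linear_combination e1 + 2 * X * e2
  have hpk' : ∀ k : Fin 3, γ.pull (ℓ k.castSucc) =
      C ((α k)⁻¹ * u k ^ 2) * (X - C (-(p k / u k))) ^ 2 := by
    intro k
    have h1 : g k = C (u k ^ 2) * (X - C (-(p k / u k))) ^ 2 := by
      have h2 : C (p k) = C (u k) * C (p k / u k) := by
        rw [← map_mul, mul_div_cancel₀ _ (hu0 k)]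
      rw [hg]
      simp only [map_neg, map_pow]
      rw [h2]
      ring
    calc γ.pull (ℓ k.castSucc) = C ((α k)⁻¹) * (C (α k) * γ.pull (ℓ k.castSucc)) := by
          rw [← mul_assoc, ← map_mul, inv_mul_cancel₀ (hα k), map_one, one_mul]
      _ = _ := by
          rw [hpk, h1, map_mul, mul_assoc]
  refine ⟨γ, ![-(p 0 / u 0), -(p 1 / u 1), -(p 2 / u 2), 0], rfl, hLI, ?_, ?_⟩
  · funext i
    exact hFc i
  · intro j
    fin_cases j
    · exact ⟨_, mul_ne_zero (inv_ne_zero (hα 0)) (pow_ne_zero 2 (hu0 0)), hpk' 0⟩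
    · exact ⟨_, mul_ne_zero (inv_ne_zero (hα 1)) (pow_ne_zero 2 (hu0 1)), hpk' 1⟩
    · exact ⟨_, mul_ne_zero (inv_ne_zero (hα 2)) (pow_ne_zero 2 (hu0 2)), hpk' 2⟩
    · exact ⟨_, hs, hp3⟩

end Pool.Agent.Y173.SH
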