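import Mathlib
import Pool.Agent.H436R3.MainC

/-!
# Plane orbifold pairs: the lower bounds
-/

set_option autoImplicit false

namespace Pool.Agent.Y173.SH

open Polynomial Pool.Agent.H436R3

theorem ord_le_e {d : ℕ} {ℓ : Fin d → Fin 3 → ℂ} (γ : RatCurve) (h : ∀ j, γ.pull (ℓ j) ≠ 0)
    (j : Fin d) {a : Option ℂ} (ha : a ∈ pts ℓ γ) : γ.ord (ℓ j) a ≤ γ.e := by
  rw [← sum_ord_pts γ h j]
  exact Finset.single_le_sum (f := fun a => γ.ord (ℓ j) a) (fun _ _ => Nat.zero_le _) ha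

theorem arith7 {d e n : ℕ} (hd : 7 ≤ d) (he : 2 ≤ e) (h : d * e + 4 ≤ 6 * e + n) :
    d - 1 ≤ n := by
  obtain ⟨k, rfl⟩ := Nat.exists_eq_add_of_le hd
  obtain ⟨f, rfl⟩ := Nat.exists_eq_add_of_le he
  have h1 : (7 + k) * (2 + f) = 6 * (2 + f) + 2 + f + 2 * k + k * f := by ring
  have h2 : 0 ≤ k * f := Nat.zero_le _
  omega

open Classical in
theorem card_sharp {d : ℕ} (hd : 7 ≤ d) {ℓ : Fin d → Fin 3 → ℂ} {γ : RatCurve} (he : 1 ≤ γ.e)
    (h : ∀ j, γ.pull (ℓ j) ≠ 0)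
    (h1 : d * γ.e + 2 ≤ 3 * γ.e + ((pts ℓ γ).filter fun a => ∃ j, γ.ord (ℓ j) a ≠ 0).card)
    (h2 : d * γ.e + 4 ≤ 6 * γ.e + ((pts ℓ γ).filter fun a => ∃ j, γ.ord (ℓ j) a = 1).card) :
    d - 1 ≤ ((pts ℓ γ).filter fun a => ∃ j, γ.ord (ℓ j) a = 1).card := by
  rcases he.eq_or_lt with he1 | he2
  · have h3 : ((pts ℓ γ).filter fun a => ∃ j, γ.ord (ℓ j) a = 1) =
        ((pts ℓ γ).filter fun a => ∃ j, γ.ord (ℓ j) a ≠ 0) := by
      apply Finset.filter_congr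
      intro a ha
      constructor
      · rintro ⟨j, hj⟩
        exact ⟨j, by omega⟩
      · rintro ⟨j, hj⟩
        have := ord_le_e γ h j ha
        exact ⟨j, by omega⟩
    rw [h3]
    rw [← he1] at h1
    omega
  · exact arith7 hd he2 h2

/-- no orbifold rational curve through a very general point if all coefficients are at least
`2 / (d - 1)`, `d ≥ 7` -/
theorem veryGeneral_not {d : ℕ} (hd : 7 ≤ d) (P : PlaneOrbifold d)
    (hc : ∀ j, (2 : ℚ) / (d - 1) ≤ P.c j) : VeryGeneral fun x => ¬ P.CurveThrough x := by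
  classical
  obtain ⟨Z, hZ, h1⟩ := veryGeneral_estimate (by omega : 3 ≤ d) P.general
  refine ⟨Z, hZ, fun x hx hn => ?_⟩
  rintro ⟨γ, δ, ⟨hγδ, hdeg⟩, hγx⟩
  obtain ⟨h0, h2⟩ := h1 x hx hn γ hγδ.nonconst hγδ.not_subset hγx
  have h3 := card_sharp hd hγδ.nonconst hγδ.not_subset h0 h2
  let N := (pts P.ℓ γ).filter fun a => ∃ j, γ.ord (P.ℓ j) a = 1
  have hd0 : (0 : ℚ) < d - 1 := by
    have : (7 : ℚ) ≤ d := by exact_mod_cast hd
    linarith
  have h4 : ∀ a ∈ N, (2 : ℚ) / (d - 1) ≤ δ a := by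
    intro a ha
    obtain ⟨j, hj⟩ := (Finset.mem_filter.1 ha).2
    have h5 := hγδ.le_mult a j (γ.sum_val_eq_zero _ _ (by omega))
    rw [hj, Nat.cast_one, one_mul] at h5
    exact (hc j).trans (le_of_mult_le (P.c_le_one j) h5)
  have h5 : (2 : ℚ) ≤ ∑ a ∈ N, δ a := by
    calc (2 : ℚ) = (d - 1) * (2 / (d - 1)) := by field_simp
      _ ≤ (N.card : ℚ) * (2 / (d - 1)) := by
          apply mul_le_mul_of_nonneg_right _ (by positivity)
          have h6 : ((d - 1 : ℕ) : ℚ) ≤ N.card := by exact_mod_cast h3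
          rwa [Nat.cast_sub (by omega), Nat.cast_one] at h6
      _ = ∑ _a ∈ N, (2 / (d - 1) : ℚ) := by simp
      _ ≤ ∑ a ∈ N, δ a := Finset.sum_le_sum h4
  have h6 : ∑ a ∈ N, δ a ≤ δ.sum fun _ r => r := by
    rw [Finsupp.sum]
    apply Finset.sum_le_sum_of_subset_of_nonneg
    · intro a ha
      rw [Finsupp.mem_support_iff]
      have h7 := h4 a ha
      have h8 : (0 : ℚ) < 2 / (d - 1) := by positivity
      linarith
    · intro a _ _
      exact hγδ.coeff_nonneg a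
  linarith

theorem le_of_mult_le_mul {c r : ℚ} (hc : c ≤ 1) (hr : r ≤ 1) {t : ℕ} (ht : t ≠ 0)
    (h : mult c ≤ (t : ENNReal) * mult r) : 1 - t * (1 - c) ≤ r := by
  have hc' : (0 : ℝ) ≤ 1 - c := by
    have : (c : ℝ) ≤ 1 := by exact_mod_cast hc
    linarith
  have hr' : (0 : ℝ) ≤ 1 - r := by
    have : (r : ℝ) ≤ 1 := by exact_mod_cast hr
    linarith
  have ht' : (0 : ℝ) < t := by exact_mod_cast Nat.pos_of_ne_zero ht
  have h1 : ENNReal.ofReal (1 - (r : ℝ)) ≤ (t : ENNReal) * ENNReal.ofReal (1 - (c : ℝ)) := by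
    rw [mult, mult] at h
    have h2 : ((t : ENNReal) * (ENNReal.ofReal (1 - (r : ℝ)))⁻¹)⁻¹ ≤
        ENNReal.ofReal (1 - (c : ℝ)) := ENNReal.inv_le_iff_inv_le.1 h
    rw [ENNReal.mul_inv (Or.inl (by exact_mod_cast ht)) (Or.inl (ENNReal.natCast_ne_top t)),
      inv_inv] at h2
    calc ENNReal.ofReal (1 - (r : ℝ)) = (t : ENNReal) * ((t : ENNReal)⁻¹ *
          ENNReal.ofReal (1 - (r : ℝ))) := by
          rw [← mul_assoc, ENNReal.mul_inv_cancel (by exact_mod_cast ht)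
            (ENNReal.natCast_ne_top t), one_mul]
      _ ≤ _ := mul_le_mul_right h2 _
  have h2 : (t : ENNReal) * ENNReal.ofReal (1 - (c : ℝ)) = ENNReal.ofReal (t * (1 - (c : ℝ))) := by
    rw [ENNReal.ofReal_mul ht'.le, ENNReal.ofReal_natCast]
  rw [h2, ENNReal.ofReal_le_ofReal_iff (mul_nonneg ht'.le hc')] at h1
  have h3 : (1 : ℝ) - t * (1 - c) ≤ r := by linarith
  exact_mod_cast h3

open Classical in
/-- the sum of the numbers `1 - ∑ t_{a,j} (1 - c_j)` -/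
theorem sum_low {d : ℕ} (P : PlaneOrbifold d) {γ : RatCurve}
    (h : ∀ j, γ.pull (P.ℓ j) ≠ 0)
    (h1 : d * γ.e + 2 ≤ 3 * γ.e + ((pts P.ℓ γ).filter fun a => ∃ j, γ.ord (P.ℓ j) a ≠ 0).card)
    (hK : 0 ≤ P.degKD) (r : Option ℂ → ℝ)
    (hr : ∀ a j, γ.ord (P.ℓ j) a ≠ 0 → 1 - γ.ord (P.ℓ j) a * (1 - (P.c j : ℝ)) ≤ r a) :
    2 ≤ ∑ a ∈ (pts P.ℓ γ).filter fun a => ∃ j, γ.ord (P.ℓ j) a ≠ 0, r a := by
  have hcj : ∀ j, (0 : ℝ) ≤ 1 - P.c j := by
    intro j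
    have : (P.c j : ℝ) ≤ 1 := by exact_mod_cast P.c_le_one j
    linarith
  have h2 : ∀ a ∈ (pts P.ℓ γ).filter fun a => ∃ j, γ.ord (P.ℓ j) a ≠ 0,
      (1 : ℝ) - ∑ j, γ.ord (P.ℓ j) a * (1 - (P.c j : ℝ)) ≤ r a := by
    intro a ha
    obtain ⟨j, hj⟩ := (Finset.mem_filter.1 ha).2
    refine le_trans ?_ (hr a j hj)
    have h3 : (γ.ord (P.ℓ j) a : ℝ) * (1 - (P.c j : ℝ)) ≤
        ∑ j, (γ.ord (P.ℓ j) a : ℝ) * (1 - (P.c j : ℝ)) :=
      Finset.single_le_sum (f := fun j => (γ.ord (P.ℓ j) a : ℝ) * (1 - (P.c j : ℝ)))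
        (fun j _ => mul_nonneg (Nat.cast_nonneg _) (hcj j)) (Finset.mem_univ j)
    linarith
  refine le_trans ?_ (Finset.sum_le_sum h2)
  rw [Finset.sum_sub_distrib]
  have h3 : ∑ a ∈ (pts P.ℓ γ).filter fun a => ∃ j, γ.ord (P.ℓ j) a ≠ 0,
      ∑ j, (γ.ord (P.ℓ j) a : ℝ) * (1 - (P.c j : ℝ)) ≤ γ.e * ∑ j, (1 - (P.c j : ℝ)) := by
    calc _ ≤ ∑ a ∈ pts P.ℓ γ, ∑ j, (γ.ord (P.ℓ j) a : ℝ) * (1 - (P.c j : ℝ)) := by
          apply Finset.sum_le_sum_of_subset_of_nonneg (Finset.filter_subset _ _)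
          intro a _ _
          exact Finset.sum_nonneg fun j _ => mul_nonneg (Nat.cast_nonneg _) (hcj j)
      _ = ∑ j, (∑ a ∈ pts P.ℓ γ, (γ.ord (P.ℓ j) a : ℝ)) * (1 - (P.c j : ℝ)) := by
          rw [Finset.sum_comm]
          refine Finset.sum_congr rfl fun j _ => ?_
          rw [Finset.sum_mul]
      _ = γ.e * ∑ j, (1 - (P.c j : ℝ)) := by
          rw [Finset.mul_sum]
          refine Finset.sum_congr rfl fun j _ => ?_
          have h4 := sum_ord_pts γ h j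
          have h5 : (∑ a ∈ pts P.ℓ γ, (γ.ord (P.ℓ j) a : ℝ)) = γ.e := by exact_mod_cast h4
          rw [h5]
  have h4 : ∑ j, (1 - (P.c j : ℝ)) = d - ∑ j, (P.c j : ℝ) := by
    rw [Finset.sum_sub_distrib]
    simp
  have h5 : (3 : ℝ) ≤ ∑ j, (P.c j : ℝ) := by
    have h6 : (3 : ℚ) ≤ ∑ j, P.c j := by
      unfold PlaneOrbifold.degKD at hK
      linarith
    exact_mod_cast h6
  have h6 : (d : ℝ) * γ.e + 2 ≤ 3 * γ.e +
      ((pts P.ℓ γ).filter fun a => ∃ j, γ.ord (P.ℓ j) a ≠ 0).card := by exact_mod_cast h1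
  rw [h4] at h3
  have h7 : (0 : ℝ) ≤ γ.e := Nat.cast_nonneg _
  have h8 : (3 : ℝ) * γ.e ≤ (∑ j, (P.c j : ℝ)) * γ.e := mul_le_mul_of_nonneg_right h5 h7
  simp only [Finset.sum_const, nsmul_eq_mul, mul_one]
  nlinarith

/-- no orbifold rational curve through a very general point if `K + D` is pseudo-effective -/
theorem veryGeneral_not_psef {d : ℕ} (P : PlaneOrbifold d) (hK : 0 ≤ P.degKD) :
    VeryGeneral fun x => ¬ P.CurveThrough x := by
  classical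
  have hd : 3 ≤ d := by
    unfold PlaneOrbifold.degKD at hK
    have h1 : ∑ j, P.c j ≤ d := by
      calc ∑ j, P.c j ≤ ∑ _j : Fin d, (1 : ℚ) := Finset.sum_le_sum fun j _ => P.c_le_one j
        _ = d := by simp
    have h2 : (3 : ℚ) ≤ d := by linarith
    exact_mod_cast h2
  obtain ⟨Z, hZ, h1⟩ := veryGeneral_estimate hd P.general
  refine ⟨Z, hZ, fun x hx hn => ?_⟩
  rintro ⟨γ, δ, ⟨hγδ, hdeg⟩, hγx⟩
  obtain ⟨h0, -⟩ := h1 x hx hn γ hγδ.nonconst hγδ.not_subset hγx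
  have h2 := sum_low P hγδ.not_subset h0 hK (fun a => (δ a : ℝ)) (fun a j haj => by
    have h3 := le_of_mult_le_mul (P.c_le_one j) (hγδ.coeff_le_one a) haj
      (hγδ.le_mult a j (γ.sum_val_eq_zero _ _ haj))
    have h4 : ((1 - (γ.ord (P.ℓ j) a : ℚ) * (1 - P.c j) : ℚ) : ℝ) ≤ δ a := by exact_mod_cast h3
    push_cast at h4
    exact h4)
  have h3 : (2 : ℚ) ≤ ∑ a ∈ (pts P.ℓ γ).filter fun a => ∃ j, γ.ord (P.ℓ j) a ≠ 0, δ a := by
    exact_mod_cast h2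
  have h6 : ∑ a ∈ (pts P.ℓ γ).filter fun a => ∃ j, γ.ord (P.ℓ j) a ≠ 0, δ a ≤
      δ.sum fun _ r => r := by
    rw [Finsupp.sum]
    calc _ ≤ ∑ a ∈ ((pts P.ℓ γ).filter fun a => ∃ j, γ.ord (P.ℓ j) a ≠ 0) ∪ δ.support, δ a :=
          Finset.sum_le_sum_of_subset_of_nonneg Finset.subset_union_left
            fun a _ _ => hγδ.coeff_nonneg a
      _ = ∑ a ∈ δ.support, δ a := by
          symm
          apply Finset.sum_subset Finset.subset_union_right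
          intro a _ ha
          exact Finsupp.notMem_support_iff.1 ha
  linarith

end Pool.Agent.Y173.SH
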