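import Mathlib
import Pool.Agent.Y173.SH.Low
import Pool.Agent.Y173.SH.Conic

/-!
# Plane orbifold pairs with equal coefficients: classification
-/

set_option autoImplicit false

namespace Pool.Agent.Y173.SH

open Polynomial Pool.Agent.H436R3

theorem conic_arith {d : ℕ} {c : ℚ} (hd4 : 4 ≤ d) (hd6 : d ≤ 6) (h : d * c < 3) :
    (((d - 4) * 2 : ℕ) : ℚ) * c + 4 * max 0 (2 * c - 1) < 2 := by
  rcases le_total (2 * c - 1) 0 with h5 | h5
  · rw [max_eq_left h5]
    interval_cases d
    · norm_num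
    · norm_num at h ⊢
      linarith
    · norm_num at h ⊢
      linarith
  · rw [max_eq_right h5]
    interval_cases d
    · norm_num at h ⊢
      linarith
    · norm_num at h ⊢
      linarith
    · norm_num at h ⊢
      linarith

/-- conics tangent to four of the lines -/
theorem conics {d : ℕ} (hd4 : 4 ≤ d) (hd6 : d ≤ 6) (P : PlaneOrbifold d) {c : ℚ}
    (hc : ∀ j, P.c j ≤ c) (hc1 : c ≤ 1) (h : d * c < 3) : VeryGeneral (LC P) := by
  classical
  have hc0 : 0 ≤ c := (P.c_pos ⟨0, by omega⟩).le.trans (hc _)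
  have hl : ∀ j, P.ℓ j ≠ 0 := by
    intro j
    have h1 := P.general {j} (by simp)
    exact h1.ne_zero ⟨j, by simp⟩
  have hgen4 : ∀ s : Finset (Fin 4), s.card ≤ 3 →
      LinearIndependent ℂ (fun j : s => P.ℓ (Fin.castLE hd4 j)) := by
    intro s hs
    have h1 := P.general (s.image (Fin.castLE hd4)) (Finset.card_image_le.trans hs)
    exact h1.comp (fun j : s => (⟨Fin.castLE hd4 j, Finset.mem_image_of_mem _ j.2⟩ :
      s.image (Fin.castLE hd4))) (fun i j hij => by
        have h2 := congrArg Subtype.val hij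
        exact Subtype.ext (Fin.castLE_injective hd4 h2))
  obtain ⟨α, hα, hℓ, hdet⟩ := four_lines (ℓ := fun j => P.ℓ (Fin.castLE hd4 j)) hgen4
  obtain ⟨A, hA⟩ : ∃ A : Matrix (Fin 3) (Fin 3) ℂ,
    A = Matrix.of fun k i => α k * P.ℓ (Fin.castLE hd4 (Fin.castSucc k)) i := ⟨_, rfl⟩
  have hAd : A.det ≠ 0 := by rw [hA]; exact hdet
  let w : Fin 3 → Fin 3 → ℂ := ![![0, 1, 1], ![1, 0, 1], ![1, 1, 0]]
  have hw : ∀ t, w t ≠ 0 := by
    intro t h0
    have h1 := congrFun h0
    fin_cases t
    · exact one_ne_zero (h1 1)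
    · exact one_ne_zero (h1 0)
    · exact one_ne_zero (h1 0)
  refine veryGeneral_forms (ι := Fin d ⊕ Fin 3)
    (Sum.elim P.ℓ (fun t => Matrix.vecMul (w t) A)) ?_ fun x hx hgen => ?_
  · rintro (j | t)
    · exact hl j
    · intro h0
      exact hw t (Matrix.eq_zero_of_vecMul_eq_zero hAd h0)
  have hgenl : ∀ j, ∑ i, P.ℓ j i * x i ≠ 0 := fun j => hgen (Sum.inl j)
  obtain ⟨y, hy⟩ : ∃ y : Fin 3 → ℂ, y = A.mulVec x := ⟨_, rfl⟩
  have hy' : ∀ k, y k = α k * ∑ i, P.ℓ (Fin.castLE hd4 (Fin.castSucc k)) i * x i := by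
    intro k
    rw [hy, hA, Matrix.mulVec, dotProduct, Finset.mul_sum]
    refine Finset.sum_congr rfl fun i _ => ?_
    rw [Matrix.of_apply]
    ring
  have hyw : ∀ t, ∑ k, w t k * y k ≠ 0 := by
    intro t
    have h1 := hgen (Sum.inr t)
    have h2 : ∑ i, Sum.elim P.ℓ (fun t => Matrix.vecMul (w t) A) (Sum.inr t) i * x i =
        ∑ k, w t k * y k := by
      change dotProduct (Matrix.vecMul (w t) A) x = dotProduct (w t) y
      rw [hy, Matrix.dotProduct_mulVec]
    rwa [h2] at h1
  have hs : y 0 + y 1 + y 2 = ∑ i, P.ℓ (Fin.castLE hd4 3) i * x i := by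
    have h1 : y 0 + y 1 + y 2 = ∑ k : Fin 3, y k := (Fin.sum_univ_three _).symm
    rw [h1, Finset.sum_congr rfl fun k _ => hy' k]
    simp only [hℓ, Finset.mul_sum, Finset.sum_mul]
    rw [Finset.sum_comm]
    refine Finset.sum_congr rfl fun i _ => Finset.sum_congr rfl fun k _ => by ring
  obtain ⟨γ, r, he, hLI, hinf, hpull⟩ := exists_conic (ℓ := fun j => P.ℓ (Fin.castLE hd4 j))
    hgen4 hα hℓ hdet hx hy' (fun k => by rw [hy']; exact mul_ne_zero (hα k) (hgenl _))
    (by
      have h1 := hyw 0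
      rw [Fin.sum_univ_three] at h1
      simpa [w] using h1)
    (by
      have h1 := hyw 1
      rw [Fin.sum_univ_three] at h1
      simpa [w] using h1)
    (by
      have h1 := hyw 2
      rw [Fin.sum_univ_three] at h1
      simpa [w] using h1)
    (by rw [hs]; exact hgenl _)
  have hp : ∀ j, γ.pull (P.ℓ j) ≠ 0 := by
    intro j h0
    apply hgenl j
    rw [← hinf, γ.sum_val_none, h0, coeff_zero]
  let S : Finset (Option ℂ) := (Finset.univ.filter fun j : Fin d => 4 ≤ (j : ℕ)).biUnion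
    fun j => (γ.pull (P.ℓ j)).roots.toFinset.image some
  let T : Finset (Option ℂ) := Finset.univ.image fun j : Fin 4 => some (r j)
  have hTc : T.card ≤ 4 := Finset.card_image_le.trans (by simp)
  have hSc : S.card ≤ (d - 4) * 2 := by
    refine (Finset.card_biUnion_le).trans ?_
    have h1 : ∀ j ∈ Finset.univ.filter fun j : Fin d => 4 ≤ (j : ℕ),
        ((γ.pull (P.ℓ j)).roots.toFinset.image some : Finset (Option ℂ)).card ≤ 2 := by
      intro j _
      refine Finset.card_image_le.trans ((Multiset.toFinset_card_le _).trans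
        ((card_roots' _).trans ?_))
      exact (γ.natDegree_pull_le _).trans he.le
    refine (Finset.sum_le_card_nsmul _ _ _ h1).trans ?_
    rw [smul_eq_mul]
    refine Nat.mul_le_mul_right 2 ?_
    have h1 : (Finset.univ.filter fun j : Fin d => 4 ≤ (j : ℕ)).card =
        ((Finset.univ.filter fun j : Fin d => 4 ≤ (j : ℕ)).image (fun j : Fin d => (j : ℕ))).card :=
      (Finset.card_image_of_injective _ Fin.val_injective).symm
    rw [h1]
    have h2 : (Finset.univ.filter fun j : Fin d => 4 ≤ (j : ℕ)).image (fun j : Fin d => (j : ℕ)) ⊆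
        Finset.Ico 4 d := by
      intro n hn
      rw [Finset.mem_image] at hn
      obtain ⟨j, hj, rfl⟩ := hn
      rw [Finset.mem_Ico]
      exact ⟨(Finset.mem_filter.1 hj).2, j.2⟩
    exact (Finset.card_le_card h2).trans (by rw [Nat.card_Ico])
  obtain ⟨δ, hδ⟩ := orb_of_sets P hc0 hc1 hc γ (by omega) hp S T (fun a j haj => by
    rcases a with _ | a
    · rw [hinf] at haj
      exact absurd haj (hgenl j)
    · rw [RatCurve.sum_val_some] at haj
      by_cases hj : (j : ℕ) < 4
      · right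
        obtain ⟨s, hs0, hsj⟩ := hpull ⟨j, hj⟩
        have e1 : Fin.castLE hd4 ⟨(j : ℕ), hj⟩ = j := Fin.ext rfl
        simp only [e1] at hsj
        rw [hsj] at haj
        simp only [eval_mul, eval_C, eval_pow, eval_sub, eval_X] at haj
        have h1 : a = r ⟨j, hj⟩ := by
          have h2 := (mul_eq_zero.1 haj).resolve_left hs0
          exact sub_eq_zero.1 ((pow_eq_zero_iff two_ne_zero).1 h2)
        refine ⟨Finset.mem_image.2 ⟨⟨j, hj⟩, Finset.mem_univ _, by rw [h1]⟩, ?_⟩
        change 2 ≤ (γ.pull (P.ℓ j)).rootMultiplicity a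
        rw [le_rootMultiplicity_iff (hp j), hsj, h1]
        exact Dvd.intro_left _ rfl
      · left
        refine Finset.mem_biUnion.2 ⟨j, Finset.mem_filter.2 ⟨Finset.mem_univ _, by omega⟩, ?_⟩
        refine Finset.mem_image.2 ⟨a, ?_, rfl⟩
        rw [Multiset.mem_toFinset, mem_roots (hp j)]
        exact haj) (by
    have h1 : (S.card : ℚ) ≤ ((d - 4) * 2 : ℕ) := by exact_mod_cast hSc
    have h2 : (T.card : ℚ) ≤ 4 := by exact_mod_cast hTc
    have h3 : (0 : ℚ) ≤ max 0 (2 * c - 1) := le_max_left _ _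
    have h4 : (S.card : ℚ) * c + T.card * max 0 (2 * c - 1) ≤
        ((d - 4) * 2 : ℕ) * c + 4 * max 0 (2 * c - 1) :=
      add_le_add (mul_le_mul_of_nonneg_right h1 hc0) (mul_le_mul_of_nonneg_right h2 h3)
    exact lt_of_le_of_lt h4 (conic_arith hd4 hd6 h))
  exact ⟨γ, δ, hδ, ⟨none, 1, one_ne_zero, by rw [one_smul]; exact hinf⟩, Or.inr ⟨he, hLI⟩⟩

theorem degKD_eq {d : ℕ} (P : PlaneOrbifold d) {c : ℚ} (hc : ∀ j, P.c j = c) :
    P.degKD = -3 + d * c := by
  simp [PlaneOrbifold.degKD, hc]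

/-- the positive part -/
theorem positive {d : ℕ} (P : PlaneOrbifold d) {c : ℚ} (hc : ∀ j, P.c j ≤ c) (hc1 : c ≤ 1)
    (hK : d * c < 3) (h7 : 7 ≤ d → c < 2 / (d - 1)) : VeryGeneral (LC P) := by
  rcases Nat.eq_zero_or_pos d with h0 | h0
  · subst h0
    refine veryGeneral_forms (ι := Fin 0) (fun j => j.elim0) (fun j => j.elim0) fun x hx _ => ?_
    obtain ⟨γ, h1, h2⟩ := exists_line x hx
    obtain ⟨δ, hδ⟩ := orb_of_sets P le_rfl zero_le_one (fun j => j.elim0) γ (by omega)
      (fun j => j.elim0) ∅ ∅ (fun a j => j.elim0) (by simp)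
    exact ⟨γ, δ, hδ, h2, Or.inl h1⟩
  · rcases le_or_gt d 3 with h3 | h3
    · refine lines h0 P hc hc1 ?_
      interval_cases d
      · norm_num
        linarith
      · norm_num
        linarith
      · norm_num at hK ⊢
        linarith
    · rcases le_or_gt d 6 with h6 | h6
      · exact conics h3 h6 P hc hc1 hK
      · refine lines h0 P hc hc1 ?_
        have h8 := h7 h6
        have h9 : (7 : ℚ) ≤ d := by exact_mod_cast h6
        rw [lt_div_iff₀ (by linarith)] at h8
        rw [Nat.cast_sub (by omega)]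
        push_cast
        linarith

theorem uniruled_of_LC {d : ℕ} {P : PlaneOrbifold d} (h : VeryGeneral (LC P)) : P.IsUniruled := by
  obtain ⟨Z, hZ, h1⟩ := h
  refine ⟨Z, hZ, fun x hx hn => ?_⟩
  obtain ⟨γ, δ, h2, h3, -⟩ := h1 x hx hn
  exact ⟨γ, δ, h2, h3⟩

/-- the classification for equal coefficients -/
theorem classify {d : ℕ} (P : PlaneOrbifold d) {c : ℚ} (hc : ∀ j, P.c j = c) :
    List.TFAE [P.IsUniruled, VeryGeneral (LC P), P.degKD < 0 ∧ (7 ≤ d → c < 2 / (d - 1))] := by
  tfae_have 2 → 1 := uniruled_of_LC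
  tfae_have 1 → 3 := by
    intro h
    refine ⟨?_, fun h7 => ?_⟩
    · by_contra hcon
      obtain ⟨x, _, h1, h2⟩ := h.exists_common (veryGeneral_not_psef P (not_lt.1 hcon))
      exact h2 h1
    · by_contra hcon
      obtain ⟨x, _, h1, h2⟩ := h.exists_common (veryGeneral_not h7 P fun j => by
        rw [hc]
        exact not_lt.1 hcon)
      exact h2 h1
  tfae_have 3 → 2 := by
    rintro ⟨h1, h2⟩
    rw [degKD_eq P hc] at h1
    rcases Nat.eq_zero_or_pos d with h0 | h0
    · subst h0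
      exact positive P (c := 0) (fun j => j.elim0) zero_le_one (by simp) (by simp)
    · refine positive P (fun j => (hc j).le) ?_ (by linarith) h2
      rw [← hc ⟨0, h0⟩]
      exact P.c_le_one _
  tfae_finish

end Pool.Agent.Y173.SH
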