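import Mathlib
import Pool.Agent.Y173.SH.Main

/-!
# Plane orbifold pairs with equal coefficients: the divisor `D_C`, weak uniruledness
-/

set_option autoImplicit false

namespace Pool.Agent.Y173.SH

open Polynomial Pool.Agent.H436R3

theorem coeff_le {c : ℚ} (hc : c ≤ 1) {m : ENNReal} (hm : 1 ≤ m) (h : m ≤ mult c) :
    1 - (m⁻¹).toReal ≤ (c : ℝ) := by
  have hc' : (0 : ℝ) ≤ 1 - c := by
    have : (c : ℝ) ≤ 1 := by exact_mod_cast hc
    linarith
  have h1 : ENNReal.ofReal (1 - (c : ℝ)) ≤ m⁻¹ := by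
    rw [mult] at h
    have h2 := ENNReal.inv_le_inv.2 h
    rwa [inv_inv] at h2
  have h3 : m⁻¹ ≠ ⊤ := by
    have h4 : m⁻¹ ≤ 1 := ENNReal.inv_le_one.2 hm
    exact ne_top_of_le_ne_top ENNReal.one_ne_top h4
  have h2 := ENNReal.toReal_mono h3 h1
  rw [ENNReal.toReal_ofReal hc'] at h2
  linarith

/-- the divisor `D_C` is the smallest one -/
theorem degC_of_orb {d : ℕ} {P : PlaneOrbifold d} {γ : RatCurve} {δ : Option ℂ →₀ ℚ}
    (h : P.IsOrbifoldRationalCurve γ δ) : P.degC γ (P.multMin γ) < 0 := by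
  classical
  obtain ⟨hγ, hdeg⟩ := h
  rw [PlaneOrbifold.degC, preimage_eq P γ hγ.not_subset, finsum_mem_coe_finset]
  have h1 : ∀ a, 1 - ((P.multMin γ a)⁻¹).toReal ≤ (δ a : ℝ) := by
    intro a
    refine coeff_le (hγ.coeff_le_one a) (le_max_left _ _) (max_le ?_ ?_)
    · have h2 : mult 0 = 1 := by simp [mult]
      rw [← h2]
      exact mult_mono (hγ.coeff_nonneg a)
    · exact iSup_le fun j => iSup_le fun hj => ENNReal.div_le_of_le_mul' (hγ.le_mult a j hj)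
  have h6 : ∑ a ∈ (pts P.ℓ γ).filter fun a => ∃ j, γ.ord (P.ℓ j) a ≠ 0, δ a ≤
      δ.sum fun _ r => r := by
    rw [Finsupp.sum]
    calc _ ≤ ∑ a ∈ ((pts P.ℓ γ).filter fun a => ∃ j, γ.ord (P.ℓ j) a ≠ 0) ∪ δ.support, δ a :=
          Finset.sum_le_sum_of_subset_of_nonneg Finset.subset_union_left
            fun a _ _ => hγ.coeff_nonneg a
      _ = ∑ a ∈ δ.support, δ a := by
          symm
          apply Finset.sum_subset Finset.subset_union_right
          intro a _ ha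
          exact Finsupp.notMem_support_iff.1 ha
  have h7 : ∑ a ∈ (pts P.ℓ γ).filter fun a => ∃ j, γ.ord (P.ℓ j) a ≠ 0,
      (1 - ((P.multMin γ a)⁻¹).toReal) ≤
      ∑ a ∈ (pts P.ℓ γ).filter fun a => ∃ j, γ.ord (P.ℓ j) a ≠ 0, (δ a : ℝ) :=
    Finset.sum_le_sum fun a _ => h1 a
  have h8 : (∑ a ∈ (pts P.ℓ γ).filter fun a => ∃ j, γ.ord (P.ℓ j) a ≠ 0, δ a : ℚ) < 2 := by
    linarith
  have h9 : (∑ a ∈ (pts P.ℓ γ).filter fun a => ∃ j, γ.ord (P.ℓ j) a ≠ 0, (δ a : ℝ)) < 2 := by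
    exact_mod_cast h8
  linarith

/-- the lower bound for the smallest divisor and for the literal one, all coefficients at least
`2 / (d - 1)` -/
theorem veryGeneral_deg {d : ℕ} (hd : 3 ≤ d) (P : PlaneOrbifold d)
    (hc : ∀ j, (2 : ℚ) / (d - 1) ≤ P.c j) : VeryGeneral fun x => ∀ γ : RatCurve, 1 ≤ γ.e →
      (∀ j, γ.pull (P.ℓ j) ≠ 0) → γ.Through x →
      (7 ≤ d → 0 ≤ P.degC γ (P.multMin γ)) ∧ 0 ≤ P.degC γ (P.multLit γ) := by
  classical
  obtain ⟨Z, hZ, h1⟩ := veryGeneral_estimate hd P.general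
  refine ⟨Z, hZ, fun x hx hn γ he hγ hγx => ?_⟩
  obtain ⟨h2, h3⟩ := h1 x hx hn γ he hγ hγx
  have h2' := count_arith' (by omega) he h2
  have hd0 : (0 : ℚ) < d - 1 := by
    have : (3 : ℚ) ≤ d := by exact_mod_cast hd
    linarith
  have hdr : (0 : ℝ) < d - 1 := by exact_mod_cast hd0
  have hc1 : (2 : ℚ) / (d - 1) ≤ 1 := by
    have : (3 : ℚ) ≤ d := by exact_mod_cast hd
    rw [div_le_one hd0]
    linarith
  have hcr : (((2 : ℚ) / (d - 1) : ℚ) : ℝ) = 2 / (d - 1) := by push_cast; ring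
  constructor
  · intro hd7
    have h3 := card_sharp hd7 he hγ h2 h3
    rw [PlaneOrbifold.degC, preimage_eq P γ hγ, finsum_mem_coe_finset]
    have h4 : ∀ a, 0 ≤ 1 - ((P.multMin γ a)⁻¹).toReal := by
      intro a
      have h5 : mult 0 ≤ P.multMin γ a := by
        have : mult 0 = 1 := by simp [mult]
        rw [this]
        exact le_max_left _ _
      have := coeff_ge zero_le_one h5
      simpa using this
    have h5 : ∀ a ∈ (pts P.ℓ γ).filter fun a => ∃ j, γ.ord (P.ℓ j) a = 1,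
        (2 : ℝ) / (d - 1) ≤ 1 - ((P.multMin γ a)⁻¹).toReal := by
      intro a ha
      obtain ⟨j, hj⟩ := (Finset.mem_filter.1 ha).2
      rw [← hcr]
      apply coeff_ge hc1
      refine (mult_mono (hc j)).trans ?_
      refine le_trans ?_ (le_max_right _ _)
      refine le_iSup_of_le j (le_iSup_of_le (γ.sum_val_eq_zero _ _ (by omega)) ?_)
      rw [hj]
      simp
    have h6 : (2 : ℝ) ≤ ∑ a ∈ (pts P.ℓ γ).filter fun a => ∃ j, γ.ord (P.ℓ j) a = 1,
        (1 - ((P.multMin γ a)⁻¹).toReal) := by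
      calc (2 : ℝ) = (d - 1) * (2 / (d - 1)) := by field_simp
        _ ≤ (((pts P.ℓ γ).filter fun a => ∃ j, γ.ord (P.ℓ j) a = 1).card : ℝ) *
            (2 / (d - 1)) := by
            apply mul_le_mul_of_nonneg_right _ (by positivity)
            have h6 : ((d - 1 : ℕ) : ℝ) ≤
              ((pts P.ℓ γ).filter fun a => ∃ j, γ.ord (P.ℓ j) a = 1).card := by
                exact_mod_cast h3
            rwa [Nat.cast_sub (by omega), Nat.cast_one] at h6
        _ = ∑ _a ∈ (pts P.ℓ γ).filter fun a => ∃ j, γ.ord (P.ℓ j) a = 1,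
            (2 / (d - 1) : ℝ) := by simp
        _ ≤ _ := Finset.sum_le_sum h5
    have h7 : ∑ a ∈ (pts P.ℓ γ).filter fun a => ∃ j, γ.ord (P.ℓ j) a = 1,
        (1 - ((P.multMin γ a)⁻¹).toReal) ≤
        ∑ a ∈ (pts P.ℓ γ).filter fun a => ∃ j, γ.ord (P.ℓ j) a ≠ 0,
        (1 - ((P.multMin γ a)⁻¹).toReal) := by
      apply Finset.sum_le_sum_of_subset_of_nonneg
      · intro a ha
        rw [Finset.mem_filter] at ha ⊢
        obtain ⟨h8, j, hj⟩ := ha
        exact ⟨h8, j, by omega⟩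
      · intro a _ _
        exact h4 a
    linarith
  · rw [PlaneOrbifold.degC, preimage_eq P γ hγ, finsum_mem_coe_finset]
    have h5 : ∀ a ∈ (pts P.ℓ γ).filter fun a => ∃ j, γ.ord (P.ℓ j) a ≠ 0,
        (2 : ℝ) / (d - 1) ≤ 1 - ((P.multLit γ a)⁻¹).toReal := by
      intro a _
      rw [← hcr]
      apply coeff_ge hc1
      refine le_iInf fun j => le_iInf fun hj => ?_
      refine (mult_mono (hc j)).trans ?_
      have h6 : (1 : ENNReal) ≤ (γ.ord (P.ℓ j) a : ENNReal) := by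
        have := Nat.one_le_iff_ne_zero.2 (γ.ord_ne_zero (hγ j) hj)
        exact_mod_cast this
      calc mult (P.c j) = 1 * mult (P.c j) := (one_mul _).symm
        _ ≤ _ := mul_le_mul_left h6 _
    have h6 : (2 : ℝ) ≤ ∑ a ∈ (pts P.ℓ γ).filter fun a => ∃ j, γ.ord (P.ℓ j) a ≠ 0,
        (1 - ((P.multLit γ a)⁻¹).toReal) := by
      calc (2 : ℝ) = (d - 1) * (2 / (d - 1)) := by field_simp
        _ ≤ (((pts P.ℓ γ).filter fun a => ∃ j, γ.ord (P.ℓ j) a ≠ 0).card : ℝ) *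
            (2 / (d - 1)) := by
            apply mul_le_mul_of_nonneg_right _ (by positivity)
            have h6 : ((d - 1 : ℕ) : ℝ) ≤
              ((pts P.ℓ γ).filter fun a => ∃ j, γ.ord (P.ℓ j) a ≠ 0).card := by
                exact_mod_cast h2'
            rwa [Nat.cast_sub (by omega), Nat.cast_one] at h6
        _ = ∑ _a ∈ (pts P.ℓ γ).filter fun a => ∃ j, γ.ord (P.ℓ j) a ≠ 0,
            (2 / (d - 1) : ℝ) := by simp
        _ ≤ _ := Finset.sum_le_sum h5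
    linarith

/-- the lower bound for the smallest divisor if `K + D` is pseudo-effective -/
theorem veryGeneral_deg_psef {d : ℕ} (P : PlaneOrbifold d) (hK : 0 ≤ P.degKD) :
    VeryGeneral fun x => ∀ γ : RatCurve, 1 ≤ γ.e →
      (∀ j, γ.pull (P.ℓ j) ≠ 0) → γ.Through x → 0 ≤ P.degC γ (P.multMin γ) := by
  classical
  have hd : 3 ≤ d := by
    unfold PlaneOrbifold.degKD at hK
    have h1 : ∑ j, P.c j ≤ d := by
      calc ∑ j, P.c j ≤ ∑ _j : Fin d, (1 : ℚ) := Finset.sum_le_sum fun j _ => P.c_le_one j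
        _ = d := by simp
    have h2 : (3 : ℚ) ≤ d := by linarith
    exact_mod_cast h2
  obtain ⟨Z, hZ, h1⟩ := veryGeneral_estimate hd P.general
  refine ⟨Z, hZ, fun x hx hn γ he hγ hγx => ?_⟩
  obtain ⟨h0, -⟩ := h1 x hx hn γ he hγ hγx
  rw [PlaneOrbifold.degC, preimage_eq P γ hγ, finsum_mem_coe_finset]
  have h2 := sum_low P hγ h0 hK (fun a => 1 - ((P.multMin γ a)⁻¹).toReal) (fun a j haj => by
    have hcj : (0 : ℝ) ≤ 1 - P.c j := by
      have : (P.c j : ℝ) ≤ 1 := by exact_mod_cast P.c_le_one j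
      linarith
    have h3 : mult (P.c j) / (γ.ord (P.ℓ j) a : ENNReal) ≤ P.multMin γ a := by
      refine le_trans ?_ (le_max_right _ _)
      refine le_iSup_of_le j (le_iSup_of_le (γ.sum_val_eq_zero _ _ haj) ?_)
      exact le_rfl
    have h4 : (P.multMin γ a)⁻¹ ≤ (γ.ord (P.ℓ j) a : ENNReal) *
        ENNReal.ofReal (1 - (P.c j : ℝ)) := by
      have h5 := ENNReal.inv_le_inv.2 h3
      refine h5.trans ?_
      rw [ENNReal.inv_div (Or.inl (ENNReal.natCast_ne_top _)) (Or.inl (by exact_mod_cast haj)),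
        mult, ENNReal.div_eq_inv_mul, inv_inv, mul_comm]
    rw [← ENNReal.ofReal_natCast, ← ENNReal.ofReal_mul (Nat.cast_nonneg _)] at h4
    have h5 := ENNReal.toReal_mono ENNReal.ofReal_ne_top h4
    rw [ENNReal.toReal_ofReal (mul_nonneg (Nat.cast_nonneg _) hcj)] at h5
    linarith)
  linarith

/-- the literal divisor for lines -/
theorem lines_lit {d : ℕ} (hd : 1 ≤ d) (P : PlaneOrbifold d) {c : ℚ} (hc : ∀ j, P.c j ≤ c)
    (hc1 : c ≤ 1) (h : (1 + (d - 2 : ℕ) : ℚ) * c < 2) : P.IsUniruledWith P.multLit := by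
  classical
  have hc0 : 0 ≤ c := (P.c_pos ⟨0, hd⟩).le.trans (hc _)
  obtain ⟨Z, hZ, h1⟩ := lines_aux hd P
  refine ⟨Z, hZ, fun x hx hn => ?_⟩
  obtain ⟨γ, S, he, hx, hp, hScard, hS⟩ := h1 x hx hn
  refine ⟨γ, by omega, hp, ?_, hx⟩
  rw [PlaneOrbifold.degC, preimage_eq P γ hp, finsum_mem_coe_finset]
  have h2 : ∀ a ∈ (pts P.ℓ γ).filter fun a => ∃ j, γ.ord (P.ℓ j) a ≠ 0,
      1 - ((P.multLit γ a)⁻¹).toReal ≤ (c : ℝ) := by
    intro a ha
    obtain ⟨ha1, j, hj⟩ := Finset.mem_filter.1 ha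
    have h3 : γ.ord (P.ℓ j) a = 1 := by
      have := ord_le_e γ hp j ha1
      omega
    refine coeff_le hc1 ?_ ?_
    · refine le_iInf fun i => le_iInf fun hi => ?_
      have h4 : (1 : ENNReal) ≤ (γ.ord (P.ℓ i) a : ENNReal) := by
        have := Nat.one_le_iff_ne_zero.2 (γ.ord_ne_zero (hp i) hi)
        exact_mod_cast this
      have h5 : (1 : ENNReal) ≤ mult (P.c i) := by
        have h6 : mult 0 = 1 := by simp [mult]
        rw [← h6]
        exact mult_mono (P.c_pos i).le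
      calc (1 : ENNReal) = 1 * 1 := (one_mul _).symm
        _ ≤ _ := mul_le_mul' h4 h5
    · refine (iInf_le_of_le j (iInf_le_of_le (γ.sum_val_eq_zero _ _ hj) le_rfl)).trans ?_
      rw [h3, Nat.cast_one, one_mul]
      exact mult_mono (hc j)
  have h3 : ∑ a ∈ (pts P.ℓ γ).filter fun a => ∃ j, γ.ord (P.ℓ j) a ≠ 0,
      (1 - ((P.multLit γ a)⁻¹).toReal) ≤
      (((pts P.ℓ γ).filter fun a => ∃ j, γ.ord (P.ℓ j) a ≠ 0).card : ℝ) * c := by
    refine (Finset.sum_le_sum h2).trans ?_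
    simp
  have h4 : ((pts P.ℓ γ).filter fun a => ∃ j, γ.ord (P.ℓ j) a ≠ 0).card ≤ 1 + (d - 2) := by
    refine (Finset.card_le_card fun a ha => ?_).trans hScard
    obtain ⟨-, j, hj⟩ := Finset.mem_filter.1 ha
    exact hS a j (γ.sum_val_eq_zero _ _ hj)
  have h5 : (((pts P.ℓ γ).filter fun a => ∃ j, γ.ord (P.ℓ j) a ≠ 0).card : ℝ) * c ≤
      (1 + (d - 2 : ℕ) : ℝ) * c := by
    refine mul_le_mul_of_nonneg_right ?_ (by exact_mod_cast hc0)
    exact_mod_cast h4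
  have h6 : (1 + (d - 2 : ℕ) : ℝ) * c < 2 := by exact_mod_cast h
  linarith

/-- the classification for `D_C` -/
theorem classifyW {d : ℕ} (P : PlaneOrbifold d) {c : ℚ} (hc : ∀ j, P.c j = c) :
    (P.IsWeaklyUniruled ↔ P.degKD < 0) ∧
    (P.IsUniruledWith P.multMin ↔ P.degKD < 0 ∧ (7 ≤ d → c < 2 / (d - 1))) ∧
    (1 ≤ d → (P.IsUniruledWith P.multLit ↔ (d - 1 : ℚ) * c < 2)) := by
  refine ⟨⟨fun h => ?_, isWeaklyUniruled P⟩, ⟨fun h => ⟨?_, fun h7 => ?_⟩, fun h => ?_⟩,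
    fun hd => ⟨fun h => ?_, fun h => ?_⟩⟩
  · obtain ⟨x, _, ⟨γ, h1, h2, -⟩, -⟩ := h.exists_common h
    have h3 : (0 : ℚ) < γ.e := by exact_mod_cast h1
    by_contra hcon
    exact absurd h2 (not_lt.2 (mul_nonneg h3.le (not_lt.1 hcon)))
  · by_contra hcon
    obtain ⟨x, _, ⟨γ, h1, h2, h3, h4⟩, h5⟩ :=
      h.exists_common (veryGeneral_deg_psef P (not_lt.1 hcon))
    exact absurd (h5 γ h1 h2 h4) (not_le.2 h3)
  · by_contra hcon
    obtain ⟨x, _, ⟨γ, h1, h2, h3, h4⟩, h5⟩ :=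
      h.exists_common (veryGeneral_deg (by omega) P fun j => by
        rw [hc]
        exact not_lt.1 hcon)
    exact absurd ((h5 γ h1 h2 h4).1 h7) (not_le.2 h3)
  · obtain ⟨Z, hZ, h1⟩ := ((classify P hc).out 2 1).1 h
    refine ⟨Z, hZ, fun x hx hn => ?_⟩
    obtain ⟨γ, δ, h2, h3, -⟩ := h1 x hx hn
    exact ⟨γ, h2.1.nonconst, h2.1.not_subset, degC_of_orb h2, h3⟩
  · have hc1 : c ≤ 1 := by
      rw [← hc ⟨0, hd⟩]
      exact P.c_le_one _
    have hc0 : 0 < c := by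
      rw [← hc ⟨0, hd⟩]
      exact P.c_pos _
    rcases le_or_gt 3 d with h3 | h3
    · by_contra hcon
      have h4 : (3 : ℚ) ≤ d := by exact_mod_cast h3
      obtain ⟨x, _, ⟨γ, h1, h2, h3, h4⟩, h5⟩ :=
        h.exists_common (veryGeneral_deg h3 P fun j => by
          rw [hc, div_le_iff₀ (by linarith), mul_comm]
          exact not_lt.1 hcon)
      exact absurd (h5 γ h1 h2 h4).2 (not_le.2 h3)
    · have h4 : (d : ℚ) ≤ 2 := by exact_mod_cast (by omega : d ≤ 2)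
      nlinarith
  · have hc1 : c ≤ 1 := by
      rw [← hc ⟨0, hd⟩]
      exact P.c_le_one _
    refine lines_lit hd P (fun j => (hc j).le) hc1 ?_
    rcases le_or_gt 2 d with h3 | h3
    · rw [Nat.cast_sub h3]
      push_cast
      linarith
    · have h4 : d - 2 = 0 := by omega
      rw [h4]
      norm_num
      linarith

end Pool.Agent.Y173.SH
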